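import Pool.Agent.K1H47.RC.Stm

set_option autoImplicit false

/-! Smooth points of a cone of dimension three: openness, and generic smoothness along a parametrized
curve (pieces TAN and SMOOTH). -/

namespace Pool.Agent.K1H52.RC

open MvPolynomial Topology Filter Pool.Agent.K1H47.RC

/-- the gradient -/
noncomputable def grad {L : Type} [Field L] {ι : Type} (z : ι → L) (q : MvPolynomial ι L) : ι → L :=
  fun i => eval z (pderiv i q)

theorem mem_tanSp {L : Type} [Field L] {ι : Type} [Fintype ι] {S : Set (MvPolynomial ι L)}
    {z w : ι → L} : w ∈ tanSp S z ↔ ∀ q ∈ S, ∑ i, grad z q i * w i = 0 := Iff.rfl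

/-- If the rows of an invertible matrix are gradients, up to at most three of them, then the tangent
space has dimension at most three. -/
theorem finrank_le_of_matrix {L : Type} [Field L] {ι : Type} [Fintype ι] [DecidableEq ι]
    (S : Set (MvPolynomial ι L)) (z : ι → L) (J : Finset ι) (N : Matrix ι ι L) (hN : N.det ≠ 0)
    (hJ : ∀ i, i ∉ J → ∃ q ∈ S, ∀ j, N i j = grad z q j) :
    Module.finrank L (tanSp S z) ≤ J.card := by
  classical
  let φ : tanSp S z →ₗ[L] (J → L) :=
    { toFun := fun w i => (N.mulVec w.1) i.1
      map_add' := fun a b => by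
        funext i
        simp [Matrix.mulVec_add]
      map_smul' := fun c a => by
        funext i
        simp [Matrix.mulVec_smul] }
  have hφ : Function.Injective φ := by
    rw [injective_iff_map_eq_zero]
    intro w hw
    have h1 : N.mulVec w.1 = 0 := by
      funext i
      by_cases hi : i ∈ J
      · exact congrFun hw ⟨i, hi⟩
      · obtain ⟨q, hq, hqi⟩ := hJ i hi
        have h2 := w.2 q hq
        simp only [Matrix.mulVec, dotProduct, Pi.zero_apply]
        rw [← h2]
        exact Finset.sum_congr rfl fun j _ => by rw [hqi j]; rfl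
    have h3 := Matrix.eq_zero_of_mulVec_eq_zero hN h1
    exact Subtype.ext h3
  refine (LinearMap.finrank_le_finrank_of_injective hφ).trans ?_
  simp

/-- Conversely. -/
theorem exists_matrix {L : Type} [Field L] {ι : Type} [Fintype ι] [DecidableEq ι]
    (S : Set (MvPolynomial ι L)) (z : ι → L) :
    ∃ (J : Finset ι) (N : Matrix ι ι L), J.card ≤ Module.finrank L (tanSp S z) ∧ N.det ≠ 0 ∧
      ∀ i, i ∉ J → ∃ q ∈ S, ∀ j, N i j = grad z q j := by
  classical
  obtain ⟨b, hb1, hb2, hb3⟩ := exists_linearIndependent L (grad z '' S)
  have hb4 : LinearIndepOn L id b := hb3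
  set T : Set (ι → L) := hb4.extend (Set.subset_univ b) with hT
  let B : Module.Basis T L (ι → L) := Module.Basis.extend hb4
  have hBT : ∀ x : T, B x = x := fun x => Module.Basis.extend_apply_self hb4 x
  have hbT : b ⊆ T := Module.Basis.subset_extend hb4
  let e : ι ≃ T := (Pi.basisFun L ι).indexEquiv B
  let N : Matrix ι ι L := fun i => ((e i : T) : ι → L)
  let J : Finset ι := Finset.univ.filter fun i => ((e i : T) : ι → L) ∉ b
  have hNdet : IsUnit N := by
    rw [← Matrix.linearIndependent_rows_iff_isUnit]
    have h1 : LinearIndependent L (fun i => B (e i)) := B.linearIndependent.comp _ e.injective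
    have h2 : (fun i => B (e i)) = N.row := by
      funext i
      rw [hBT]
      rfl
    rw [← h2]
    exact h1
  have hdet : IsUnit N.det := (Matrix.isUnit_iff_isUnit_det N).1 hNdet
  refine ⟨J, N, ?_, hdet.ne_zero, ?_⟩
  · -- the columns of the inverse
    let ψ : (J → L) →ₗ[L] (ι → L) :=
      { toFun := fun y => (N⁻¹).mulVec fun i => if h : i ∈ J then y ⟨i, h⟩ else 0
        map_add' := fun y y' => by
          rw [← Matrix.mulVec_add]
          congr 1
          funext i
          by_cases h : i ∈ J <;> simp [h]
        map_smul' := fun c y => by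
          simp only [RingHom.id_apply]
          rw [← Matrix.mulVec_smul]
          congr 1
          funext i
          by_cases h : i ∈ J <;> simp [h] }
    have hNψ : ∀ y, N.mulVec (ψ y) = fun i => if h : i ∈ J then y ⟨i, h⟩ else 0 := by
      intro y
      change N.mulVec ((N⁻¹).mulVec _) = _
      rw [Matrix.mulVec_mulVec, Matrix.mul_nonsing_inv _ hdet, Matrix.one_mulVec]
    have hψ : ∀ y, ψ y ∈ tanSp S z := by
      intro y
      rw [mem_tanSp]
      have hspan : ∀ v ∈ Submodule.span L (grad z '' S), ∑ i, v i * ψ y i = 0 := by
        rw [← hb2]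
        intro v hv
        induction hv using Submodule.span_induction with
        | mem v hv =>
          have h1 : ((e (e.symm ⟨v, hbT hv⟩) : T) : ι → L) = v := by rw [Equiv.apply_symm_apply]
          set i := e.symm ⟨v, hbT hv⟩ with hi
          have h2 : i ∉ J := by
            simp only [J, Finset.mem_filter, not_and, not_not]
            intro _
            rw [h1]; exact hv
          have h3 := congrFun (hNψ y) i
          rw [dif_neg h2] at h3
          rw [← h3]
          simp only [Matrix.mulVec, dotProduct]
          refine Finset.sum_congr rfl fun j _ => ?_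
          change _ = ((e i : T) : ι → L) j * _
          rw [h1]
        | zero => simp
        | add v v' _ _ h h' =>
          simp only [Pi.add_apply, add_mul, Finset.sum_add_distrib]
          rw [h, h', add_zero]
        | smul c v _ h =>
          simp only [Pi.smul_apply, smul_eq_mul, mul_assoc]
          rw [← Finset.mul_sum, h, mul_zero]
      intro q hq
      exact hspan _ (Submodule.subset_span ⟨q, hq, rfl⟩)
    let φ : (J → L) →ₗ[L] tanSp S z := ψ.codRestrict (tanSp S z) hψ
    have hφ : Function.Injective φ := by
      rw [injective_iff_map_eq_zero]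
      intro y hy
      have h1 : ψ y = 0 := congrArg Subtype.val hy
      have h2 := hNψ y
      rw [h1, Matrix.mulVec_zero] at h2
      funext i
      have h3 := congrFun h2 i.1
      rw [dif_pos i.2] at h3
      exact h3.symm
    have h5 := LinearMap.finrank_le_finrank_of_injective hφ
    simpa using h5
  · intro i hi
    have h1 : ((e i : T) : ι → L) ∈ b := by
      by_contra h
      exact hi (Finset.mem_filter.2 ⟨Finset.mem_univ i, h⟩)
    obtain ⟨q, hq, hqe⟩ := hb1 h1
    exact ⟨q, hq, fun j => by rw [hqe]⟩

theorem t_TAN : S_TAN := by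
  intro L _ _ ι _ _ S x hx
  classical
  obtain ⟨J, N, hJ, hN, hq⟩ := exists_matrix S x
  choose! q hqS hqN using hq
  let M : (ι → L) → Matrix ι ι L := fun z => fun i j => if i ∈ J then N i j else grad z (q i) j
  have hMx : M x = N := by
    funext i j
    simp only [M]
    split_ifs with h
    · rfl
    · exact (hqN i h j).symm
  have hcont : Continuous fun z => (M z).det := by
    refine Continuous.matrix_det ?_
    refine continuous_pi fun i => continuous_pi fun j => ?_
    simp only [M]
    split_ifs with h
    · exact continuous_const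
    · unfold grad
      exact MvPolynomial.continuous_eval _
  have h0 : (M x).det ≠ 0 := by rw [hMx]; exact hN
  have h1 : ∀ᶠ z in 𝓝 x, (M z).det ≠ 0 := hcont.continuousAt.eventually_ne h0
  filter_upwards [h1] with z hz
  refine (finrank_le_of_matrix S z J (M z) hz ?_).trans (hJ.trans hx)
  intro i hi
  exact ⟨q i, hqS i hi, fun j => by simp only [M]; rw [if_neg hi]⟩

theorem t_SMOOTH : S_SMOOTH := by
  intro K _ ι _ _ S r s₀ hx
  classical
  obtain ⟨J, N, hJ, hN, hq⟩ := exists_matrix S fun i => (r i).eval s₀
  choose! q hqS hqN using hq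
  let M : Matrix ι ι (Polynomial K) := fun i j =>
    if i ∈ J then Polynomial.C (N i j) else aeval r (pderiv j (q i))
  -- evaluation through a homomorphism
  have hev : ∀ (L : Type) [Field L] (σ : K →+* L) (s : L) (P : MvPolynomial ι K),
      (aeval r P : Polynomial K).eval₂ σ s = eval (fun i => (r i).eval₂ σ s) (MvPolynomial.map σ P) := by
    intro L _ σ s P
    have h1 : ((Polynomial.eval₂RingHom σ s).comp (aeval r : MvPolynomial ι K →ₐ[K] Polynomial K).toRingHom)
        = ((eval (fun i => (r i).eval₂ σ s)).comp (MvPolynomial.map σ)) := by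
      apply MvPolynomial.ringHom_ext
      · intro c
        simp
      · intro i
        simp
    exact RingHom.congr_fun h1 P
  have hMs : ∀ (L : Type) [Field L] (σ : K →+* L) (s : L), (M.det).eval₂ σ s =
      Matrix.det (fun i j => (M i j).eval₂ σ s) := by
    intro L _ σ s
    have := RingHom.map_det (Polynomial.eval₂RingHom σ s) M
    exact this
  refine ⟨M.det, ?_, ?_⟩
  · intro h0
    have h1 := hMs K (RingHom.id K) s₀
    rw [h0, Polynomial.eval₂_zero] at h1
    apply hN
    rw [h1]
    congr 1
    funext i j
    simp only [M]
    split_ifs with h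
    · simp
    · rw [hev, MvPolynomial.map_id, hqN i h j]
      unfold grad
      simp [Polynomial.eval₂_id]
  · intro L _ σ s hs
    rw [hMs] at hs
    refine (finrank_le_of_matrix _ _ J _ hs ?_).trans (hJ.trans hx)
    intro i hi
    refine ⟨MvPolynomial.map σ (q i), ⟨q i, hqS i hi, rfl⟩, fun j => ?_⟩
    simp only [M]
    rw [if_neg hi, hev]
    unfold grad
    rw [MvPolynomial.pderiv_map]

end Pool.Agent.K1H52.RC
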